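import Pool.Agent.W957.CH.Part2b
import Pool.Agent.W138.CH.FOR

/-! Project CH: assembly of the main theorem from the existence of preladders. -/

namespace Pool.Agent.W957.CH

theorem pFOR : S_FOR := Pool.Agent.W138.CH.FOR.t_FOR
theorem pREG : S_REG := Pool.Agent.W891.CH.REG.t_REG pFOR pLC
theorem topOf (h : S_LA1) : S_TOP :=
  Pool.Agent.W287.CH.t_TOP pNUM pWLK pREG (Pool.Agent.W683.CH.t_FIN h pLA2 pINI pZON)

end Pool.Agent.W957.CH
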