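import Mathlib

/-! Project CH (MP_d275fd_co, S11629): statements of the sub-results, part I.
Paths and cycles are lists of vertices. -/

namespace Pool.Agent.W957.CH

open Finset

/-- path: nonrepeating list of successively adjacent vertices (possibly empty) -/
def Pth {V : Type} (G : SimpleGraph V) (l : List V) : Prop := l.Nodup ∧ l.IsChain G.Adj

/-- path from `u` to `v` -/
def PF {V : Type} (G : SimpleGraph V) (u v : V) (l : List V) : Prop :=
  Pth G l ∧ l.head? = some u ∧ l.getLast? = some v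

/-- cycle as a list -/
def Cyc {V : Type} (G : SimpleGraph V) (l : List V) : Prop :=
  3 ≤ l.length ∧ Pth G l ∧ ∀ a b, l.head? = some a → l.getLast? = some b → G.Adj b a

/-- `y` follows `x` on the cyclic list `l` -/
def Nx {V : Type} (l : List V) (x y : V) : Prop :=
  (∃ l1 l2, l = l1 ++ x :: y :: l2) ∨ (l.getLast? = some x ∧ l.head? = some y)

/-- consecutive on the cyclic list -/
def CA {V : Type} (l : List V) (x y : V) : Prop := Nx l x y ∨ Nx l y x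

open Classical in
/-- neighbours of the set `P` inside `A` and outside `P` -/
noncomputable def nbr {V : Type} (G : SimpleGraph V) (A P : Finset V) : Finset V :=
  A.filter (fun w => w ∉ P ∧ ∃ p ∈ P, G.Adj p w)

/-- nonempty and connected -/
def Con {V : Type} (G : SimpleGraph V) (P : Finset V) : Prop :=
  P.Nonempty ∧ ∀ u ∈ P, ∀ v ∈ P, ∃ l, PF G u v l ∧ ∀ x ∈ l, x ∈ P

open Classical in
/-- number of ordered adjacent pairs in `S` -/
noncomputable def ed2 {V : Type} (G : SimpleGraph V) (S : Finset V) : ℕ :=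
  ((S ×ˢ S).filter (fun p => G.Adj p.1 p.2)).card

/-- for the vertex set `S` of a cycle: twice the number of chords -/
noncomputable def ch2 {V : Type} (G : SimpleGraph V) (S : Finset V) : ℕ := ed2 G S - 2 * S.card

/-- cycle `c 0, ..., c (n-1)` given by a function -/
structure CR {V : Type} (G : SimpleGraph V) (n : ℕ) (c : ℕ → V) : Prop where
  three : 3 ≤ n
  inj : ∀ i j, i < n → j < n → c i = c j → i = j
  adj : ∀ i, i + 1 < n → G.Adj (c i) (c (i + 1))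
  clo : G.Adj (c (n - 1)) (c 0)

/-- vertex set of the cycle -/
def img {V : Type} [DecidableEq V] (n : ℕ) (c : ℕ → V) : Finset V := (range n).image c

/-- positions `i j` are consecutive on the cycle of length `n` -/
def cons (n i j : ℕ) : Prop :=
  j = i + 1 ∨ i = j + 1 ∨ (i = 0 ∧ j = n - 1) ∨ (j = 0 ∧ i = n - 1)

/-- the position `i` is the end of a chord -/
def chE {V : Type} (G : SimpleGraph V) (n : ℕ) (c : ℕ → V) (i : ℕ) : Prop :=
  ∃ j, j < n ∧ G.Adj (c i) (c j) ∧ ¬ cons n i j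

/-- no chord ends at positions in `[a,b]` -/
def Free {V : Type} (G : SimpleGraph V) (n : ℕ) (c : ℕ → V) (a b : ℕ) : Prop :=
  ∀ i, a ≤ i → i ≤ b → ¬ chE G n c i

/-- number of segments -/
def mu (m : ℕ) : ℕ := 2 * m + 10
/-- number of end clumps -/
def Lam (m : ℕ) : ℕ := 2 ^ (3 * mu m) * (9 * mu m)
/-- bound for the number of attachments -/
def beta (m t : ℕ) : ℕ :=
  3 * mu m + mu m * ((t + Lam m + 2) + (t + Lam m + 2) ^ 2 * (m + 3))

/-- data of the extremal situation: graph `G`, region `A` with boundary `B`, level function `k`,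
`F (k l)` bounds the number of chords of a cycle of length `l`, `m` bounds all numbers of chords
in `A`, `q` = (maximal) twice number of chords of long cycles, `L` = length of the best cycle -/
structure Cx (V : Type) where
  G : SimpleGraph V
  A : Finset V
  B : Finset V
  k : ℕ → ℕ
  F : ℕ → ℕ
  m : ℕ
  q : ℕ
  L : ℕ

/-- the properties of the extremal situation -/
structure Ok {V : Type} [DecidableEq V] (X : Cx V) : Prop where
  hBA : X.B ⊆ X.A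
  deg : ∀ v ∈ X.A, v ∉ X.B → 3 ≤ (nbr X.G X.A {v}).card
  kmono : Monotone X.k
  Fmono : Monotone X.F
  F2 : ∀ h, X.F (2 * h) ≤ h
  F4 : X.F 4 = 0
  g4 : X.F (X.k 4) = 0
  reg : ∀ P : Finset V, P ⊆ X.A → P.Nonempty → Disjoint P X.B → P ∪ nbr X.G X.A P ≠ X.A →
    3 ≤ (nbr X.G X.A P).card ∧
    ∀ l, Cyc X.G l → (∀ x ∈ l, x ∈ P ∪ nbr X.G X.A P) → X.k l.length + 3 ≤ (nbr X.G X.A P).card
  chd : ∀ l, Cyc X.G l → (∀ x ∈ l, x ∈ X.A) → ch2 X.G l.toFinset < 2 * X.F (X.k l.length)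
  chm : ∀ l, Cyc X.G l → (∀ x ∈ l, x ∈ X.A) → X.F (X.k l.length) ≤ X.m
  mnl : ∀ Y : Fin 4 → Finset V, (∀ i, (Y i).Nonempty ∧ Y i ⊆ X.A ∧ Disjoint (Y i) X.B) →
    (∀ i j, i ≠ j → Disjoint (Y i) (Y j)) →
    (∀ i j, nbr X.G X.A (Y i) = nbr X.G X.A (Y j)) → False
  max : ∀ l, Cyc X.G l → (∀ x ∈ l, x ∈ X.A) → X.L ≤ 256 * l.length → ch2 X.G l.toFinset ≤ X.q
  big : 64 * (100 * mu X.m + 100) ≤ X.L

/-- good cycle -/
structure Good {V : Type} [DecidableEq V] (X : Cx V) (n : ℕ) (c : ℕ → V) : Prop where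
  cr : CR X.G n c
  sub : ∀ i, i < n → c i ∈ X.A
  chq : ch2 X.G (img n c) = X.q
  len : X.L ≤ 64 * n

/-- the cyclic list `l` is a rerouting of the good cycle `c`: the positions in `Rm` are left out,
the vertices `E` outside the cycle are new, and no new connection inside the old cycle is used -/
structure Rer {V : Type} [DecidableEq V] (X : Cx V) (n : ℕ) (c : ℕ → V) (l : List V)
    (Rm : Finset ℕ) (E : List V) : Prop where
  cyc : Cyc X.G l
  mem : ∀ x, x ∈ l ↔ (∃ i, i < n ∧ i ∉ Rm ∧ c i = x) ∨ x ∈ E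
  EA : ∀ x ∈ E, x ∈ X.A ∧ x ∉ img n c
  fr : ∀ i ∈ Rm, i < n ∧ ¬ chE X.G n c i
  con : ∀ i j, i < n → j < n → CA l (c i) (c j) → cons n i j

/-- CH-GR: reroutings which are not too short keep the number of chords, have no new chords, and
are good again -/
def S_GR : Prop := ∀ (V : Type) [DecidableEq V] (X : Cx V) (n : ℕ) (c : ℕ → V) (l : List V)
  (Rm : Finset ℕ) (E : List V), Ok X → Good X n c → Rer X n c l Rm E → 4 * Rm.card ≤ 3 * n →
  ch2 X.G l.toFinset = X.q ∧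
  (∀ x y, x ∈ l → y ∈ l → x ∈ E → X.G.Adj x y → CA l x y) ∧
  (∀ i j, i < n → j < n → i ∉ Rm → j ∉ Rm → cons n i j → CA l (c i) (c j)) ∧
  (X.L ≤ 16 * n → ∃ n' c', Good X n' c' ∧ img n' c' = l.toFinset)

/-- positions `a, ..., b` of the cycle as a list -/
def sg {V : Type} (c : ℕ → V) (a b : ℕ) : List V := (List.range' a (b + 1 - a)).map c

/-- `R` is a nonempty path outside the cycle joining the position `a` to the position `b` -/
def Ear {V : Type} [DecidableEq V] (X : Cx V) (n : ℕ) (c : ℕ → V) (a b : ℕ) (R : List V) : Prop :=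
  (∃ u v, PF X.G u v R ∧ X.G.Adj (c a) u ∧ X.G.Adj v (c b)) ∧ ∀ x ∈ R, x ∈ X.A ∧ x ∉ img n c

/-- CH-PR1: one ear -/
def S_PR1 : Prop := ∀ (V : Type) [DecidableEq V] (X : Cx V) (n : ℕ) (c : ℕ → V) (a b : ℕ)
  (R : List V), Good X n c → a < b → b < n → Free X.G n c a b → Ear X n c a b R →
  Rer X n c (sg c 0 a ++ R ++ sg c b (n - 1)) (Ioo a b) R

/-- CH-PR2: two parallel ears `a1-b1`, `a2-b2` -/
def S_PR2 : Prop := ∀ (V : Type) [DecidableEq V] (X : Cx V) (n : ℕ) (c : ℕ → V) (a1 a2 b1 b2 : ℕ)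
  (R1 R2 : List V), Good X n c → a1 < a2 → a2 < b1 → b1 < b2 → b2 < n →
  Free X.G n c a1 a2 → Free X.G n c b1 b2 → Ear X n c a1 b1 R1 → Ear X n c a2 b2 R2 →
  (∀ x ∈ R1, x ∉ R2) →
  Rer X n c (sg c 0 a1 ++ R1 ++ (sg c a2 b1).reverse ++ R2 ++ sg c b2 (n - 1))
    (Ioo a1 a2 ∪ Ioo b1 b2) (R1 ++ R2)

/-- CH-PR4: four ears, `K1 : a1-b1`, `K2 : a2-b2` and `L1`, `L2` joining `l1`, `l2` to the two
positions `w1 < w2` (in one of the two ways) -/
def S_PR4 : Prop := ∀ (V : Type) [DecidableEq V] (X : Cx V) (n : ℕ) (c : ℕ → V)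
  (a1 a2 l1 l2 b2 b1 w1 w2 e1 e2 : ℕ) (K1 K2 L1 L2 : List V), Good X n c →
  a1 < a2 → a2 < l1 → l1 < l2 → l2 < b2 → b2 < b1 → b1 < w1 → w1 < w2 → w2 < n →
  Free X.G n c a1 a2 → Free X.G n c l1 l2 → Free X.G n c b2 b1 → Free X.G n c w1 w2 →
  Ear X n c a1 b1 K1 → Ear X n c a2 b2 K2 → Ear X n c l1 e1 L1 → Ear X n c l2 e2 L2 →
  ((e1 = w1 ∧ e2 = w2) ∨ (e1 = w2 ∧ e2 = w1)) →
  (K1 ++ K2 ++ L1 ++ L2).Nodup →
  ∃ l, Rer X n c l (Ioo a1 a2 ∪ Ioo l1 l2 ∪ Ioo b2 b1 ∪ Ioo w1 w2) (K1 ++ K2 ++ L1 ++ L2)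

/-- CH-PR3: three ears, `K : a-b` and `L1`, `L2` joining `l1`, `l2` to `w1 < w2` -/
def S_PR3 : Prop := ∀ (V : Type) [DecidableEq V] (X : Cx V) (n : ℕ) (c : ℕ → V)
  (a l1 l2 b w1 w2 e1 e2 : ℕ) (K L1 L2 : List V), Good X n c →
  a < l1 → l1 < l2 → l2 < b → b < w1 → w1 < w2 → w2 < n →
  Free X.G n c a l1 → Free X.G n c l2 b → Free X.G n c w1 w2 →
  Ear X n c a b K → Ear X n c l1 e1 L1 → Ear X n c l2 e2 L2 →
  ((e1 = w1 ∧ e2 = w2) ∨ (e1 = w2 ∧ e2 = w1)) →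
  (K ++ L1 ++ L2).Nodup →
  ∃ l, Rer X n c l (Ioo a l1 ∪ Ioo l2 b ∪ Ioo w1 w2) (K ++ L1 ++ L2)

/-- CH-EAR: consequences for one ear -/
def S_EAR : Prop := ∀ (V : Type) [DecidableEq V] (X : Cx V) (n : ℕ) (c : ℕ → V) (a b : ℕ)
  (R : List V), Ok X → Good X n c → a < b → b < n → Free X.G n c a b → 2 * (b - a) ≤ n →
  Ear X n c a b R →
  a + 1 < b ∧
  (∀ r ∈ R, ∀ i, i < n → i ≤ a ∨ b ≤ i → X.G.Adj r (c i) →
    (i = a ∧ R.head? = some r) ∨ (i = b ∧ R.getLast? = some r)) ∧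
  (∀ r ∈ R, ∀ s ∈ R, X.G.Adj r s → (∃ l1 l2, R = l1 ++ r :: s :: l2) ∨
    (∃ l1 l2, R = l1 ++ s :: r :: l2))

/-- CH-FAN -/
def S_FAN : Prop := ∀ (V : Type) [DecidableEq V] (G : SimpleGraph V) (W T : Finset V) (z : V),
  z ∈ W → T ⊆ W → z ∉ T → T.Nonempty →
  (∀ u ∈ W, u ≠ z → ∃ t ∈ T, ∃ l, PF G z t l ∧ ∀ x ∈ l, x ∈ W ∧ x ≠ u) →
  ∃ s ∈ T, ∃ t ∈ T, s ≠ t ∧ ∃ l1 l2, PF G s t (l1 ++ z :: l2) ∧ ∀ x ∈ l1 ++ z :: l2, x ∈ W

open Classical in
/-- CH-CORE -/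
def S_CORE : Prop := ∀ (V : Type) [DecidableEq V] (G : SimpleGraph V) (W T D : Finset V)
  (d : V → ℕ) (M : ℕ), Con G W → T ⊆ W → 2 ≤ T.card → D ⊆ W → 2 ≤ M →
  (∀ S ⊆ W, S.Nonempty → Disjoint S T → 2 ≤ (nbr G W S).card) →
  (∀ v ∈ D, ∀ w ∈ D, v ≠ w → ∀ l, PF G v w l → (∀ x ∈ l, x ∈ W) →
    ∀ u ∈ l, u ∈ D → u ≠ v → u ≠ w → (d v < d u ∧ d u < d w) ∨ (d w < d u ∧ d u < d v)) →
  (∀ l, Pth G l → (∀ x ∈ l, x ∈ W) → (D.filter (fun v => v ∈ l)).card ≤ M) →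
  D.card ≤ T.card + T.card ^ 2 * M

/-- piece: connected set `W` outside the cycle, exceptional vertices `T` -/
structure Pc {V : Type} [DecidableEq V] (X : Cx V) (n : ℕ) (c : ℕ → V) (W T : Finset V) : Prop where
  con : Con X.G W
  sub : W ⊆ X.A
  dis : Disjoint W (img n c)
  TW : T ⊆ W
  bd : X.B ∩ W ⊆ T
  cl : ∀ v ∈ W, v ∉ T → nbr X.G X.A {v} ⊆ W ∪ img n c

open Classical in
/-- positions in `[a,b]` attached to `W` -/
noncomputable def att {V : Type} (G : SimpleGraph V) (c : ℕ → V) (a b : ℕ) (W : Finset V) :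
    Finset ℕ := (Icc a b).filter (fun i => ∃ v ∈ W, G.Adj v (c i))

/-- CH-A: three attachments in a free interval -/
def S_A : Prop := ∀ (V : Type) [DecidableEq V] (X : Cx V) (n : ℕ) (c : ℕ → V) (a b : ℕ)
  (W T : Finset V), Ok X → Good X n c → Pc X n c W T → a ≤ b → b < n → Free X.G n c a b →
  2 * (b - a) ≤ n → 3 ≤ (att X.G c a b W).card →
  ∀ v ∈ W, ∀ i, a ≤ i → i ≤ b → X.G.Adj v (c i) → ∀ j, j < n → X.G.Adj v (c j) → j = i

/-- pendant set with respect to `W`, `T` -/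
def Pen {V : Type} [DecidableEq V] (G : SimpleGraph V) (W T S : Finset V) : Prop :=
  S.Nonempty ∧ S ⊆ W ∧ Disjoint S T ∧ (nbr G W S).card = 1 ∧ ¬ W ⊆ S ∪ nbr G W S

/-- end clump: minimal pendant set -/
def EC {V : Type} [DecidableEq V] (G : SimpleGraph V) (W T S : Finset V) : Prop :=
  Pen G W T S ∧ ∀ S', S' ⊂ S → ¬ Pen G W T S'

/-- CH-EC1: fans in end clumps -/
def S_EC1 : Prop := ∀ (V : Type) [DecidableEq V] (G : SimpleGraph V) (W T S : Finset V) (v : V),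
  Con G W → EC G W T S → nbr G W S = {v} →
  Con G S ∧ Con G (insert v S) ∧
  ∀ x ∈ insert v S, ∀ y ∈ insert v S, ∀ z ∈ insert v S, x ≠ y → x ≠ z → y ≠ z →
    ∃ l1 l2, PF G x y (l1 ++ z :: l2) ∧ ∀ u ∈ l1 ++ z :: l2, u ∈ insert v S

/-- CH-EC2: end clumps are disjoint -/
def S_EC2 : Prop := ∀ (V : Type) [DecidableEq V] (G : SimpleGraph V) (W T S S' : Finset V) (v v' : V),
  Con G W → EC G W T S → EC G W T S' → S ≠ S' → nbr G W S = {v} → nbr G W S' = {v'} →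
  Disjoint S S' ∧ v ∉ S'

/-- CH-EC3: end clumps have no attachments in free intervals where `W` has three attachments -/
def S_EC3 : Prop := ∀ (V : Type) [DecidableEq V] (X : Cx V) (n : ℕ) (c : ℕ → V) (a b : ℕ)
  (W T S : Finset V), Ok X → Good X n c → Pc X n c W T → a ≤ b → b < n → Free X.G n c a b →
  2 * (b - a) ≤ n → 3 ≤ (att X.G c a b W).card → EC X.G W T S →
  ∀ v ∈ S, ∀ i, a ≤ i → i ≤ b → ¬ X.G.Adj v (c i)

/-- CH-NOEC: without end clumps (and exceptional vertices) at most two attachments -/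
def S_NOEC : Prop := ∀ (V : Type) [DecidableEq V] (X : Cx V) (n : ℕ) (c : ℕ → V) (a b : ℕ)
  (W : Finset V), Ok X → Good X n c → Pc X n c W ∅ → a ≤ b → b < n → Free X.G n c a b →
  2 * (b - a) ≤ n → 3 ≤ (att X.G c a b W).card → ∃ S, EC X.G W ∅ S

/-- CH-HUB: hub lemma -/
def S_HUB : Prop := ∀ (V : Type) [DecidableEq V] (X : Cx V) (h : ℕ) (a : Fin h → V)
  (S : Fin (h + 1) → Finset V) (v : Fin (h + 1) → V), Ok X → 2 ≤ h → 2 * h + 10 ≤ X.L →
  Function.Injective a → (∀ i, a i ∈ X.A) →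
  (∀ i, S i ⊆ X.A ∧ Disjoint (S i) X.B ∧ v i ∈ X.A ∧ v i ∉ S i ∧ Con X.G (S i)) →
  (∀ i, nbr X.G X.A (S i) = insert (v i) (univ.image a)) →
  (∀ i j, i ≠ j → Disjoint (insert (v i) (S i)) (insert (v j) (S j))) →
  (∀ i j, a j ∉ insert (v i) (S i)) →
  (∀ i, ∀ x ∈ insert (v i) (S i), ∀ y ∈ insert (v i) (S i), ∀ z ∈ insert (v i) (S i),
    x ≠ y → x ≠ z → y ≠ z → ∃ l1 l2, PF X.G x y (l1 ++ z :: l2) ∧
      ∀ u ∈ l1 ++ z :: l2, u ∈ insert (v i) (S i)) →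
  (∃ w ∈ X.A, w ∉ univ.image a ∧ ∀ i, w ∉ insert (v i) (S i)) → False

/-- CH-EC4: number of end clumps -/
def S_EC4 : Prop := ∀ (V : Type) [DecidableEq V] (X : Cx V) (n : ℕ) (c : ℕ → V)
  (W T : Finset V) (E : Finset (Finset V)), Ok X → Good X n c → Pc X n c W T →
  (∀ S ∈ E, EC X.G W T S) → E.card ≤ Lam X.m

/-- marking of a good cycle -/
structure Mark {V : Type} [DecidableEq V] (X : Cx V) (n : ℕ) (c : ℕ → V) (M : Finset ℕ) : Prop where
  lt : ∀ i ∈ M, i < n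
  ce : ∀ i, i < n → chE X.G n c i → i ∈ M
  gap : ∀ a b, a ≤ b → b < n → (∀ i, a ≤ i → i ≤ b → i ∉ M) → 8 * (b - a) ≤ n
  card : M.card + 1 ≤ mu X.m

/-- CH-MARK -/
def S_MARK : Prop := ∀ (V : Type) [DecidableEq V] (X : Cx V) (n : ℕ) (c : ℕ → V),
  Ok X → Good X n c → ∃ M, Mark X n c M

/-- CH-XP: bounded number of attachments of a piece -/
def S_XP : Prop := ∀ (V : Type) [DecidableEq V] (X : Cx V) (n : ℕ) (c : ℕ → V)
  (W T : Finset V), Ok X → Good X n c → Pc X n c W T →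
  (att X.G c 0 (n - 1) W).card ≤ beta X.m T.card

/-- CH-X: Lemma X -/
def S_X : Prop := ∀ (V : Type) [DecidableEq V] (X : Cx V) (n : ℕ) (c : ℕ → V)
  (P : Finset V) (t : ℕ), Ok X → Good X n c → Con X.G P → P ⊆ X.A → Disjoint P (img n c) →
  (nbr X.G X.A P \ img n c).card + (P ∩ X.B).card ≤ t →
  (nbr X.G X.A P ∩ img n c).card ≤ beta X.m t

/-- component of the complement of the cycle -/
def Comp {V : Type} [DecidableEq V] (X : Cx V) (n : ℕ) (c : ℕ → V) (K : Finset V) : Prop :=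
  Con X.G K ∧ K ⊆ X.A ∧ Disjoint K (img n c) ∧ nbr X.G X.A K ⊆ img n c

/-- `K` is attached to the position `i` -/
def At {V : Type} (X : Cx V) (c : ℕ → V) (K : Finset V) (i : ℕ) : Prop :=
  ∃ v ∈ K, X.G.Adj v (c i)

/-- CH-U2: a component without boundary vertices is not attached to one free interval only -/
def S_U2 : Prop := ∀ (V : Type) [DecidableEq V] (X : Cx V) (n : ℕ) (c : ℕ → V) (a b : ℕ)
  (K : Finset V), Ok X → Good X n c → Comp X n c K → Disjoint K X.B → a ≤ b → b < n →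
  Free X.G n c a b → 8 * (b - a) ≤ n → ∃ i, i < n ∧ (i < a ∨ b < i) ∧ At X c K i

end Pool.Agent.W957.CH
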