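import Pool.Agent.W957.CH.Stm

/-! Project CH (MP_d275fd_co, S11629): auxiliary statements for part I. -/

namespace Pool.Agent.W957.CH

open Finset

open Classical in
/-- CH-CH2C: chords and ordered nonconsecutive adjacent positions -/
def S_CH2C : Prop := ∀ (V : Type) [DecidableEq V] (G : SimpleGraph V) (n : ℕ) (c : ℕ → V),
  CR G n c → (img n c).card = n ∧ ed2 G (img n c) = 2 * n + ((range n ×ˢ range n).filter
    (fun p => G.Adj (c p.1) (c p.2) ∧ ¬ cons n p.1 p.2)).card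

/-- CH-LC: from cyclic lists to functions -/
def S_LC : Prop := ∀ (V : Type) [DecidableEq V] (G : SimpleGraph V) (l : List V), Cyc G l →
  ∃ c : ℕ → V, CR G l.length c ∧ img l.length c = l.toFinset ∧
    (∀ i (h : i < l.length), l[i] = c i) ∧
    ∀ i j, i < l.length → j < l.length → (CA l (c i) (c j) ↔ cons l.length i j)

/-- CH-CL: from functions to cyclic lists -/
def S_CL : Prop := ∀ (V : Type) [DecidableEq V] (G : SimpleGraph V) (n : ℕ) (c : ℕ → V),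
  CR G n c → Cyc G (sg c 0 (n - 1)) ∧ (sg c 0 (n - 1)).toFinset = img n c ∧
    (sg c 0 (n - 1)).length = n

open Classical in
/-- CH-CH2L: chords of a cyclic list -/
def S_CH2L : Prop := ∀ (V : Type) [DecidableEq V] (G : SimpleGraph V) (l : List V), Cyc G l →
  l.toFinset.card = l.length ∧ ed2 G l.toFinset = 2 * l.length +
    ((l.toFinset ×ˢ l.toFinset).filter (fun p => G.Adj p.1 p.2 ∧ ¬ CA l p.1 p.2)).card

/-- CH-SEG: the unmarked positions form at most `M.card + 1` intervals -/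
def S_SEG : Prop := ∀ (n : ℕ) (M : Finset ℕ), (∀ i ∈ M, i < n) → ∃ Sg : Finset (ℕ × ℕ),
  Sg.card ≤ M.card + 1 ∧
  (∀ p ∈ Sg, p.1 ≤ p.2 ∧ p.2 < n ∧ ∀ i, p.1 ≤ i → i ≤ p.2 → i ∉ M) ∧
  ∀ i, i < n → i ∉ M → ∃ p ∈ Sg, p.1 ≤ i ∧ i ≤ p.2

open Classical in
/-- CH-CORE1: vertices of `D` on paths from `t1` to `t2` -/
def S_CORE1 : Prop := ∀ (V : Type) [DecidableEq V] (G : SimpleGraph V) (W D : Finset V)
  (d : V → ℕ) (M : ℕ) (t1 t2 : V), D ⊆ W → t1 ∈ W → t2 ∈ W → t1 ≠ t2 → 2 ≤ M →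
  (∀ v ∈ D, ∀ w ∈ D, v ≠ w → ∀ l, PF G v w l → (∀ x ∈ l, x ∈ W) →
    ∀ u ∈ l, u ∈ D → u ≠ v → u ≠ w → (d v < d u ∧ d u < d w) ∨ (d w < d u ∧ d u < d v)) →
  (∀ l, Pth G l → (∀ x ∈ l, x ∈ W) → (D.filter (fun v => v ∈ l)).card ≤ M) →
  (D.filter (fun v => ∃ l, PF G t1 t2 l ∧ (∀ x ∈ l, x ∈ W) ∧ v ∈ l)).card ≤ M

/-- CH-BLK: cycle composed of hubs and paths -/
def S_BLK : Prop := ∀ (V : Type) [DecidableEq V] (G : SimpleGraph V) (h : ℕ) (a : ℕ → V)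
  (p : ℕ → List V), 2 ≤ h → (∀ i j, i < h → j < h → a i = a j → i = j) →
  (∀ j, j < h → Pth G (p j)) →
  (∀ i j, i < h → j < h → i ≠ j → ∀ x ∈ p i, x ∉ p j) →
  (∀ i j, i < h → j < h → a i ∉ p j) →
  (∀ j, j < h → ∃ x, (p j).head? = some x ∧ G.Adj (a j) x) →
  (∀ j, j < h → ∃ x, (p j).getLast? = some x ∧ G.Adj x (a ((j + 1) % h))) →
  ∃ l, Cyc G l ∧ (∀ x, x ∈ l ↔ (∃ j, j < h ∧ x = a j) ∨ ∃ j, j < h ∧ x ∈ p j) ∧
    ∀ j, j < h → ∀ z ∈ p j, ∀ k, k < h → CA l z (a k) →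
      (k = j ∧ (p j).head? = some z) ∨ (k = (j + 1) % h ∧ (p j).getLast? = some z)

open Classical in
/-- CH-PB: number of attached vertices on a path -/
def S_PB : Prop := ∀ (V : Type) [DecidableEq V] (X : Cx V) (n : ℕ) (c : ℕ → V) (a b : ℕ)
  (W D : Finset V) (d : V → ℕ) (l : List V), Ok X → Good X n c → W ⊆ X.A →
  Disjoint W (img n c) → a ≤ b → b < n → Free X.G n c a b → 2 * (b - a) ≤ n →
  D ⊆ W → (∀ v ∈ D, a ≤ d v ∧ d v ≤ b ∧ X.G.Adj v (c (d v))) →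
  (∀ v ∈ D, ∀ w ∈ D, d v = d w → v = w) → Pth X.G l → (∀ x ∈ l, x ∈ W) →
  (D.filter (fun v => v ∈ l)).card ≤ X.m + 3

/-- CH-XP1: bounded number of attachments of a piece in one free interval -/
def S_XP1 : Prop := ∀ (V : Type) [DecidableEq V] (X : Cx V) (n : ℕ) (c : ℕ → V) (a b N : ℕ)
  (W T : Finset V), Ok X → Good X n c → Pc X n c W T → a ≤ b → b < n → Free X.G n c a b →
  2 * (b - a) ≤ n → 3 ≤ (att X.G c a b W).card →
  (∀ E : Finset (Finset V), (∀ S ∈ E, EC X.G W T S) → E.card ≤ N) →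
  (att X.G c a b W).card ≤ (T.card + N + 2) + (T.card + N + 2) ^ 2 * (X.m + 3)

end Pool.Agent.W957.CH
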