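import Pool.Agent.W957.CH.StmB

/-! Project CH (MP_d275fd_co, S11629): statements of the sub-results, part II. -/

namespace Pool.Agent.W957.CH

open Finset

/-- main constant -/
def bb (m τ : ℕ) : ℕ := beta m (4 * τ + 8) + 4 * τ + 8 + 4 * mu m

/-- length parameters -/
structure Par {V : Type} (X : Cx V) (τ σ : ℕ) : Prop where
  t : ∀ l, X.k l + 3 ≤ 4 * beta X.m 0 → l ≤ τ
  s : ∀ l, X.k l + 3 ≤ bb X.m τ → l ≤ σ

/-- the setting of part II -/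
structure Set2 {V : Type} [DecidableEq V] (X : Cx V) (n : ℕ) (c : ℕ → V) (τ σ : ℕ) : Prop where
  ok : Ok X
  good : Good X n c
  Ln : X.L ≤ n
  par : Par X τ σ
  big : 100 * bb X.m τ ≤ n

/-- clean position -/
def Cl {V : Type} [DecidableEq V] (X : Cx V) (n : ℕ) (c : ℕ → V) (i : ℕ) : Prop :=
  i < n ∧ c i ∉ X.B ∧ ¬ chE X.G n c i ∧ ∀ K, Comp X n c K → At X c K i → Disjoint K X.B

/-- CH-PC0: components of the complement of the cycle -/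
def S_PC0 : Prop := ∀ (V : Type) [DecidableEq V] (X : Cx V) (n : ℕ) (c : ℕ → V), Ok X →
  Good X n c →
  (∀ x ∈ X.A, x ∉ img n c → ∃ K, Comp X n c K ∧ x ∈ K) ∧
  (∀ K K' x, Comp X n c K → Comp X n c K' → x ∈ K → x ∈ K' → K = K') ∧
  (∀ i, Cl X n c i → ∃ K, Comp X n c K ∧ At X c K i) ∧
  (∀ a b K, Comp X n c K → At X c K a → At X c K b → ∃ R, Ear X n c a b R ∧ ∀ x ∈ R, x ∈ K)

/-- CH-NC: components of the new cycle -/
def S_NC : Prop := ∀ (V : Type) [DecidableEq V] (X : Cx V) (n : ℕ) (c : ℕ → V) (l : List V)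
  (Rm : Finset ℕ) (E : List V) (p q : ℕ), Ok X → Good X n c → X.L ≤ n → Rer X n c l Rm E →
  4 * Rm.card ≤ 3 * n → p ≤ q → (∀ r, p ≤ r → r ≤ q → r ∈ Rm) → (∀ r ∈ Rm, Cl X n c r) →
  ∃ K, Con X.G K ∧ K ⊆ X.A ∧ (∀ r, p ≤ r → r ≤ q → c r ∈ K) ∧ Disjoint K l.toFinset ∧
    Disjoint K X.B ∧ nbr X.G X.A K ⊆ l.toFinset ∧ (nbr X.G X.A K).card ≤ beta X.m 0

/-- CH-4A -/
def S_4A : Prop := ∀ (V : Type) [DecidableEq V] (X : Cx V) (n : ℕ) (c : ℕ → V) (τ σ i j : ℕ)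
  (K : Finset V), Set2 X n c τ σ → i < j → 2 * (j - i) ≤ n →
  (∀ p, i ≤ p → p ≤ j → Cl X n c p) → Comp X n c K → At X c K i → At X c K j → j - i + 1 ≤ τ

/-- CH-4C -/
def S_4C : Prop := ∀ (V : Type) [DecidableEq V] (X : Cx V) (n : ℕ) (c : ℕ → V)
  (τ σ i1 i2 j1 j2 : ℕ) (K1 K2 : Finset V), Set2 X n c τ σ → i1 < i2 → i2 < j1 → j1 < j2 →
  2 * ((i2 - i1) + (j2 - j1)) ≤ n →
  (∀ p, i1 ≤ p → p ≤ i2 → Cl X n c p) → (∀ p, j1 ≤ p → p ≤ j2 → Cl X n c p) →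
  Comp X n c K1 → Comp X n c K2 → K1 ≠ K2 → At X c K1 i1 → At X c K1 j1 →
  At X c K2 i2 → At X c K2 j2 → (i2 - i1) + (j2 - j1) + 2 ≤ τ

open Classical in
/-- the positions in `I` with all components attached to them -/
noncomputable def pcs {V : Type} [DecidableEq V] (X : Cx V) (n : ℕ) (c : ℕ → V) (I : Finset ℕ) :
    Finset V :=
  X.A.filter (fun x => (∃ i ∈ I, x = c i) ∨
    ∃ K, Comp X n c K ∧ x ∈ K ∧ ∃ i ∈ I, At X c K i)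

/-- CH-PCS: basic facts -/
def S_PCS : Prop := ∀ (V : Type) [DecidableEq V] (X : Cx V) (n : ℕ) (c : ℕ → V) (I : Finset ℕ),
  Ok X → Good X n c → (∀ i ∈ I, Cl X n c i) →
  Disjoint (pcs X n c I) X.B ∧
  (∀ w, w ∈ nbr X.G X.A (pcs X n c I) ↔ ∃ j, j < n ∧ j ∉ I ∧ w = c j ∧
    ((∃ i ∈ I, cons n i j) ∨ ∃ K, Comp X n c K ∧ At X c K j ∧ ∃ i ∈ I, At X c K i)) ∧
  (∀ a b, a ≤ b → I = Icc a b → Con X.G (pcs X n c I)) ∧
  (∀ a b a' b' K i j, I = Icc a b ∪ Icc a' b' → a ≤ i → i ≤ b → a' ≤ j → j ≤ b' →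
    Comp X n c K → At X c K i → At X c K j → Con X.G (pcs X n c I))

/-- CH-R1: long clean intervals have many attachments -/
def S_R1 : Prop := ∀ (V : Type) [DecidableEq V] (X : Cx V) (n : ℕ) (c : ℕ → V) (τ σ a b : ℕ),
  Set2 X n c τ σ → (∀ p, a ≤ p → p ≤ b → Cl X n c p) → 8 * (b - a) ≤ n →
  bb X.m τ * (σ + τ + 2) ≤ b - a → bb X.m τ < (nbr X.G X.A (pcs X n c (Icc a b))).card

/-- parallel pair of components -/
structure PaP {V : Type} [DecidableEq V] (X : Cx V) (n : ℕ) (c : ℕ → V) (l l' w w' : ℕ)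
    (L1 L2 : Finset V) : Prop where
  ll : l < l'
  ww : w < w'
  sep : l' < w ∨ w' < l
  cl : ∀ p, l ≤ p → p ≤ l' → Cl X n c p
  wn : w' < n
  fr : Free X.G n c w w'
  s1 : 8 * (l' - l) ≤ n
  s2 : 8 * (w' - w) ≤ n
  ne : L1 ≠ L2
  C1 : Comp X n c L1
  C2 : Comp X n c L2
  a1 : At X c L1 l
  b1 : At X c L1 w
  a2 : At X c L2 l'
  b2 : At X c L2 w'

/-- CH-PP: a parallel pair encloses attachments of the middle of the clean interval -/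
def S_PP : Prop := ∀ (V : Type) [DecidableEq V] (X : Cx V) (n : ℕ) (c : ℕ → V)
  (τ σ l l' w w' p q : ℕ) (L1 L2 : Finset V), Set2 X n c τ σ → PaP X n c l l' w w' L1 L2 →
  l + τ < p → q + τ < l' → p ≤ q → bb X.m τ * (σ + τ + 2) ≤ q - p →
  ∃ y1 y2, w < y1 ∧ y1 < y2 ∧ y2 < w' ∧
    (∃ M, Comp X n c M ∧ At X c M y1 ∧ ∃ x, p ≤ x ∧ x ≤ q ∧ At X c M x) ∧
    (∃ M, Comp X n c M ∧ At X c M y2 ∧ ∃ x, p ≤ x ∧ x ≤ q ∧ At X c M x)

/-- recursive bound -/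
def rho (r0 τ : ℕ) : ℕ → ℕ
  | 0 => τ + 1
  | u + 1 => 2 * rho r0 τ u + r0 + 2 * τ + 4

open Classical in
/-- CH-PS: no wide parallel pairs -/
def S_PS : Prop := ∀ (V : Type) [DecidableEq V] (X : Cx V) (n : ℕ) (c : ℕ → V)
  (τ σ l l' w w' u : ℕ) (L1 L2 : Finset V), Set2 X n c τ σ → PaP X n c l l' w w' L1 L2 →
  ((Icc w w').filter (fun i => ¬ Cl X n c i)).card ≤ u →
  l' - l < rho (bb X.m τ * (σ + τ + 2)) τ u

/-- bound for the number of unclean positions -/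
def UU (m b : ℕ) : ℕ := b * (1 + beta m b) + 2 * m

open Classical in
/-- CH-UC: number of unclean positions -/
def S_UC : Prop := ∀ (V : Type) [DecidableEq V] (X : Cx V) (n : ℕ) (c : ℕ → V),
  Ok X → Good X n c →
  ((range n).filter (fun i => ¬ Cl X n c i)).card ≤ UU X.m X.B.card

/-- preladder: `T` rungs -/
structure PLad {V : Type} [DecidableEq V] (X : Cx V) (n : ℕ) (c : ℕ → V) (τ T : ℕ)
    (x y : ℕ → ℕ) (K : ℕ → Finset V) : Prop where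
  xi : ∀ r, r + 1 < T → x r + τ < x (r + 1)
  yd : ∀ r, r + 1 < T → y (r + 1) < y r
  sep : (∀ r s, r < T → s < T → x r < y s) ∨ (∀ r s, r < T → s < T → y s < x r)
  lt : ∀ r, r < T → x r < n ∧ y r < n
  cx : ∀ r s, r < T → s < T → ∀ i, x r ≤ i → i ≤ x s → Cl X n c i
  sx : ∀ r s, r < T → s < T → 8 * (x r - x s) ≤ n
  sy : ∀ r s, r < T → s < T → 8 * (y r - y s) ≤ n
  K : ∀ r, r < T → Comp X n c (K r) ∧ At X c (K r) (x r) ∧ At X c (K r) (y r)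

/-- CH-LA1: existence of preladders -/
def S_LA1 : Prop := ∀ (V : Type) [DecidableEq V] (X : Cx V) (n : ℕ) (c : ℕ → V)
  (τ σ T : ℕ), Set2 X n c τ σ → 1 ≤ T →
  (UU X.m X.B.card + mu X.m + 2) * (2 * mu X.m * (T + 1)) *
    (bb X.m τ * (σ + τ + 2) + 2 + rho (bb X.m τ * (σ + τ + 2)) τ (UU X.m X.B.card)) ≤ n →
  ∃ x y K, PLad X n c τ T x y K

/-- ladder with rungs `0, ..., N` -/
structure Lad {V : Type} [DecidableEq V] (X : Cx V) (n : ℕ) (c : ℕ → V) (τ N : ℕ)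
    (x y : ℕ → ℕ) (K : ℕ → Finset V) : Prop where
  xi : ∀ r, r < N → x r + τ < x (r + 1)
  yd : ∀ r, r < N → y (r + 1) + τ < y r
  xy : x N < y N
  yn : y 0 < n
  cx : ∀ i, x 0 ≤ i → i ≤ x N → Cl X n c i
  cy : ∀ i, y N ≤ i → i ≤ y 0 → Cl X n c i
  sx : 8 * (x N - x 0) ≤ n
  sy : 8 * (y 0 - y N) ≤ n
  K : ∀ r, r ≤ N → Comp X n c (K r) ∧ At X c (K r) (x r) ∧ At X c (K r) (y r)

/-- CH-LA2: from preladders to ladders -/
def S_LA2 : Prop := ∀ (V : Type) [DecidableEq V] (X : Cx V) (n : ℕ) (c : ℕ → V)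
  (τ σ T N : ℕ) (x y : ℕ → ℕ) (K : ℕ → Finset V), Set2 X n c τ σ → PLad X n c τ T x y K →
  (UU X.m X.B.card + 2) * ((τ + 1) * (N + 2)) ≤ T → ∃ x' y' K', Lad X n c τ N x' y' K'

/-- positions of the window between the rungs `r < s` -/
def win (x y : ℕ → ℕ) (r s : ℕ) : Finset ℕ := Ioo (x r) (x s) ∪ Ioo (y s) (y r)

/-- positions in the two intervals of the ladder beyond the rung `p` -/
def Bey (x y : ℕ → ℕ) (N p l : ℕ) : Prop := (x p < l ∧ l ≤ x N) ∨ (y N ≤ l ∧ l < y p)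

/-- CH-WLOC: components attached to a window are attached nearby only -/
def S_WLOC : Prop := ∀ (V : Type) [DecidableEq V] (X : Cx V) (n : ℕ) (c : ℕ → V)
  (τ σ N : ℕ) (x y : ℕ → ℕ) (K : ℕ → Finset V) (r s i j : ℕ) (M : Finset V),
  Set2 X n c τ σ → Lad X n c τ N x y K → r < s → s ≤ N → i ∈ win x y r s → Comp X n c M →
  At X c M i → At X c M j → (x 0 ≤ j ∧ j ≤ x N) ∨ (y N ≤ j ∧ j ≤ y 0) →
  (x r ≤ j + τ ∧ j ≤ x s + τ ∧ j ≤ x N) ∨ (y s ≤ j + τ ∧ j ≤ y r + τ ∧ y N ≤ j)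

open Classical in
/-- CH-WNB: windows: connected, few neighbours in the ladder, many neighbours -/
def S_WNB : Prop := ∀ (V : Type) [DecidableEq V] (X : Cx V) (n : ℕ) (c : ℕ → V)
  (τ σ N : ℕ) (x y : ℕ → ℕ) (K : ℕ → Finset V) (r s : ℕ),
  Set2 X n c τ σ → Lad X n c τ N x y K → r + σ + 3 ≤ s → s ≤ N →
  Con X.G (pcs X n c (win x y r s)) ∧
  ((Icc (x 0) (x N) ∪ Icc (y N) (y 0)).filter
    (fun j => c j ∈ nbr X.G X.A (pcs X n c (win x y r s)))).card ≤ 4 * τ + 4 ∧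
  bb X.m τ < (nbr X.G X.A (pcs X n c (win x y r s))).card

/-- pair of outgoing components beyond the rung `p` -/
structure OuP {V : Type} [DecidableEq V] (X : Cx V) (n : ℕ) (c : ℕ → V) (N : ℕ)
    (x y : ℕ → ℕ) (p l1 l2 w1 w2 : ℕ) (L1 L2 : Finset V) : Prop where
  b1 : Bey x y N p l1
  b2 : Bey x y N p l2
  ll : l1 ≠ l2
  yw : y 0 < w1
  ww : w1 < w2
  wn : w2 < n
  fr : Free X.G n c w1 w2
  sw : 8 * (w2 - w1) ≤ n
  ne : L1 ≠ L2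
  C1 : Comp X n c L1
  C2 : Comp X n c L2
  a1 : At X c L1 l1
  a2 : At X c L2 l2
  at1 : At X c L1 w1
  at2 : At X c L2 w2

/-- CH-PRC: windows below an outgoing pair have attachments between its ends -/
def S_PRC : Prop := ∀ (V : Type) [DecidableEq V] (X : Cx V) (n : ℕ) (c : ℕ → V)
  (τ σ N : ℕ) (x y : ℕ → ℕ) (K : ℕ → Finset V) (r s p l1 l2 w1 w2 : ℕ) (L1 L2 : Finset V),
  Set2 X n c τ σ → Lad X n c τ N x y K → 1 ≤ r → r + σ + 3 ≤ s → s + 2 ≤ p → p ≤ N →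
  OuP X n c N x y p l1 l2 w1 w2 L1 L2 →
  ∃ Z : Finset ℕ, 3 ≤ Z.card ∧ ∀ z ∈ Z, w1 < z ∧ z < w2 ∧
    ∃ M, Comp X n c M ∧ At X c M z ∧ ∃ i ∈ win x y r s, At X c M i

/-- CH-SHR: no outgoing pairs high up in the ladder -/
def S_SHR : Prop := ∀ (V : Type) [DecidableEq V] (X : Cx V) (n : ℕ) (c : ℕ → V)
  (τ σ N : ℕ) (x y : ℕ → ℕ) (K : ℕ → Finset V) (s p l1 l2 w1 w2 : ℕ) (L1 L2 : Finset V),
  Set2 X n c τ σ → Lad X n c τ N x y K → (3 * σ + 18) * (s + 1) ≤ p → p ≤ N →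
  OuP X n c N x y p l1 l2 w1 w2 L1 L2 → w2 - w1 ≤ 2 ^ s → False

/-- CH-ROT: rotation of the cycle -/
def S_ROT : Prop := ∀ (V : Type) [DecidableEq V] (X : Cx V) (n : ℕ) (c : ℕ → V) (o : ℕ),
  Good X n c → o < n → Good X n (fun i => c ((i + o) % n)) ∧
  img n (fun i => c ((i + o) % n)) = img n c ∧
  (∀ i, i < n → (chE X.G n (fun i => c ((i + o) % n)) i ↔ chE X.G n c ((i + o) % n))) ∧
  ∀ i, i < n → (Cl X n (fun i => c ((i + o) % n)) i ↔ Cl X n c ((i + o) % n))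

/-- the two attached components `L1`, `L2` of two different windows of the middle of the ladder,
attached to the positions `w1 < w2` of one free interval outside the ladder -/
structure IniP {V : Type} [DecidableEq V] (X : Cx V) (n : ℕ) (c : ℕ → V) (N : ℕ)
    (x y : ℕ → ℕ) (p l1 l2 w1 w2 : ℕ) (L1 L2 : Finset V) : Prop where
  b1 : (x p < l1 ∧ l1 < x (N - p)) ∨ (y (N - p) < l1 ∧ l1 < y p)
  b2 : (x p < l2 ∧ l2 < x (N - p)) ∨ (y (N - p) < l2 ∧ l2 < y p)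
  ll : l1 ≠ l2
  zone : w2 < x 0 ∨ (x N < w1 ∧ w2 < y N) ∨ y 0 < w1
  ww : w1 < w2
  wn : w2 < n
  fr : Free X.G n c w1 w2
  sw : 8 * (w2 - w1) ≤ n
  ne : L1 ≠ L2
  C1 : Comp X n c L1
  C2 : Comp X n c L2
  a1 : At X c L1 l1
  a2 : At X c L2 l2
  at1 : At X c L1 w1
  at2 : At X c L2 w2

/-- CH-INI: initial pair -/
def S_INI : Prop := ∀ (V : Type) [DecidableEq V] (X : Cx V) (n : ℕ) (c : ℕ → V)
  (τ σ N p : ℕ) (x y : ℕ → ℕ) (K : ℕ → Finset V),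
  Set2 X n c τ σ → Lad X n c τ N x y K → 1 ≤ p → 2 * p + (3 * mu X.m + 1) * (σ + 5) ≤ N →
  ∃ l1 l2 w1 w2 L1 L2, IniP X n c N x y p l1 l2 w1 w2 L1 L2

/-- CH-ZON: the three zones -/
def S_ZON : Prop := ∀ (V : Type) [DecidableEq V] (X : Cx V) (n : ℕ) (c : ℕ → V)
  (τ σ N s p : ℕ) (x y : ℕ → ℕ) (K : ℕ → Finset V) (l1 l2 w1 w2 : ℕ) (L1 L2 : Finset V),
  Set2 X n c τ σ → Lad X n c τ N x y K → (3 * σ + 18) * (s + 1) ≤ p → 2 * p ≤ N → n ≤ 2 ^ s →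
  IniP X n c N x y p l1 l2 w1 w2 L1 L2 → False

/-- CH-FIN: contradiction for long cycles -/
def S_FIN : Prop := ∀ (V : Type) [DecidableEq V] (X : Cx V) (n : ℕ) (c : ℕ → V)
  (τ σ N s : ℕ), Set2 X n c τ σ → n ≤ 2 ^ s →
  2 * ((3 * σ + 18) * (s + 1)) + (3 * mu X.m + 1) * (σ + 5) ≤ N →
  (UU X.m X.B.card + mu X.m + 2) *
    (2 * mu X.m * ((UU X.m X.B.card + 2) * ((τ + 1) * (N + 2)) + 1)) *
    (bb X.m τ * (σ + τ + 2) + 2 + rho (bb X.m τ * (σ + τ + 2)) τ (UU X.m X.B.card)) ≤ n →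
  False

/-- numerical condition on the levels `Nn` and the slow function `F` -/
def NumC (Nn F : ℕ → ℕ) : Prop := ∀ κ n : ℕ, 1 ≤ F κ → Nn (κ - 1) < n * 2 ^ (18 * F κ) →
  64 * (100 * mu (F κ) + 100) ≤ n ∧ 100 * bb (F κ) (Nn (4 * beta (F κ) 0)) ≤ n ∧
  ∀ b, b ≤ κ + 2 → ∃ s N, n ≤ 2 ^ s ∧
  2 * ((3 * Nn (bb (F κ) (Nn (4 * beta (F κ) 0))) + 18) * (s + 1)) +
    (3 * mu (F κ) + 1) * (Nn (bb (F κ) (Nn (4 * beta (F κ) 0))) + 5) ≤ N ∧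
  (UU (F κ) b + mu (F κ) + 2) *
    (2 * mu (F κ) * ((UU (F κ) b + 2) * ((Nn (4 * beta (F κ) 0) + 1) * (N + 2)) + 1)) *
    (bb (F κ) (Nn (4 * beta (F κ) 0)) * (Nn (bb (F κ) (Nn (4 * beta (F κ) 0))) +
        Nn (4 * beta (F κ) 0) + 2) + 2 +
      rho (bb (F κ) (Nn (4 * beta (F κ) 0)) * (Nn (bb (F κ) (Nn (4 * beta (F κ) 0))) +
        Nn (4 * beta (F κ) 0) + 2)) (Nn (4 * beta (F κ) 0)) (UU (F κ) b)) ≤ n

/-- CH-NUM: existence of levels -/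
def S_NUM : Prop := ∃ Nn F : ℕ → ℕ, StrictMono Nn ∧ Nn 0 = 4 ∧ Monotone F ∧
  Filter.Tendsto F Filter.atTop Filter.atTop ∧ F 4 = 0 ∧ (∀ h, F (2 * h) ≤ h) ∧ NumC Nn F

/-- CH-FOR: few boundary vertices force a cycle -/
def S_FOR : Prop := ∀ (V : Type) [DecidableEq V] (G : SimpleGraph V) (A B : Finset V), B ⊆ A →
  (A \ B).Nonempty → (∀ v ∈ A, v ∉ B → 3 ≤ (nbr G A {v}).card) → B.card ≤ 2 →
  ∃ l, Cyc G l ∧ ∀ x ∈ l, x ∈ A

/-- CH-REG: the extremal situation -/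
def S_REG : Prop := ∀ (V : Type) [Fintype V] [DecidableEq V] [Nonempty V] (G : SimpleGraph V)
  [DecidableRel G.Adj] (k F : ℕ → ℕ), Monotone k → Monotone F → k 0 = 0 →
  (∀ h, F (2 * h) ≤ h) → F 4 = 0 → F (k 4) = 0 →
  (∀ l n, l ≤ n * 2 ^ (18 * F (k l)) → 1 ≤ F (k l) → 64 * (100 * mu (F (k l)) + 100) ≤ n) →
  (∀ v : V, 3 ≤ G.degree v) →
  (∀ l, Cyc G l → ch2 G l.toFinset < 2 * F (k l.length)) →
  ∃ (X : Cx V) (c : ℕ → V) (ll : ℕ), X.k = k ∧ X.F = F ∧ X.m = F (k ll) ∧ Ok X ∧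
    Good X X.L c ∧ 1 ≤ X.m ∧ ll ≤ X.L * 2 ^ (18 * X.m) ∧ X.B.card ≤ k ll + 2

/-- CH-WLK: cycles as walks -/
def S_WLK : Prop := ∀ (V : Type) [Fintype V] [DecidableEq V] (G : SimpleGraph V) (l : List V),
  Cyc G l → ∃ (v : V) (c : G.Walk v v), c.IsCycle ∧ c.length = l.length ∧
    ch2 G l.toFinset ≤
      2 * {e : Sym2 V | e ∈ G.edgeSet ∧ (∀ x ∈ e, x ∈ c.support) ∧ e ∉ c.edges}.ncard

/-- CH-TOP: the main theorem -/
def S_TOP : Prop := ∃ f : ℕ → ℕ, Filter.Tendsto f Filter.atTop Filter.atTop ∧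
  ∀ (V : Type) [Fintype V] [DecidableEq V] [Nonempty V]
    (G : SimpleGraph V) [DecidableRel G.Adj],
    (∀ v : V, 3 ≤ G.degree v) →
    ∃ (v : V) (c : G.Walk v v), c.IsCycle ∧
      f c.length ≤
        {e : Sym2 V | e ∈ G.edgeSet ∧ (∀ x ∈ e, x ∈ c.support) ∧ e ∉ c.edges}.ncard

end Pool.Agent.W957.CH
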