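import Pool.Agent.W347.CHGR
import Pool.Agent.W120.CH.PR12
import Pool.Agent.W804.CH.PR4
import Pool.Agent.W428.CH.Pr3
import Pool.Agent.W764.CH.Ear
import Pool.Agent.W692.CHFan
import Pool.Agent.W753.CH.CORE1
import Pool.Agent.W418.CHcore
import Pool.Agent.W612.CH.A
import Pool.Agent.W236.CH.EC12
import Pool.Agent.W366.CHEC3
import Pool.Agent.W196.CH.NOEC
import Pool.Agent.W584.CH.BLK
import Pool.Agent.W119.CH.Hub
import Pool.Agent.W99.CH.Basic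
import Pool.Agent.W883.CH.MarkSeg
import Pool.Agent.W33.CH.EC4
import Pool.Agent.W371.CH.PB
import Pool.Agent.W300.CH.XP1
import Pool.Agent.W356.CH.XP

/-! Project CH: assembly of part I. -/

namespace Pool.Agent.W957.CH

theorem pCH2C : S_CH2C := Pool.Agent.W99.CH.Basic.t_CH2C
theorem pLC : S_LC := Pool.Agent.W99.CH.Basic.t_LC
theorem pCL : S_CL := Pool.Agent.W99.CH.Basic.t_CL
theorem pCH2L : S_CH2L := Pool.Agent.W99.CH.Basic.t_CH2L pCH2C pLC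
theorem pGR : S_GR := Pool.Agent.W347.CHGR.t_GR pCH2C pCH2L pLC
theorem pPR1 : S_PR1 := Pool.Agent.W120.CH.t_PR1
theorem pPR2 : S_PR2 := Pool.Agent.W120.CH.t_PR2
theorem pPR3 : S_PR3 := Pool.Agent.W428.CH.t_PR3
theorem pPR4 : S_PR4 := Pool.Agent.W804.CH.t_PR4
theorem pEAR : S_EAR := Pool.Agent.W764.CH.t_EAR pGR pPR1
theorem pFAN : S_FAN := Pool.Agent.W692.CHFan.t_FAN
theorem pCORE1 : S_CORE1 := Pool.Agent.W753.CH.CORE1.t_CORE1
theorem pCORE : S_CORE := Pool.Agent.W418.CHcore.main pCORE1 pFAN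
theorem pA : S_A := Pool.Agent.W612.CH.t_A pEAR
theorem pEC1 : S_EC1 := Pool.Agent.W236.CH.t_EC1 pFAN
theorem pEC2 : S_EC2 := Pool.Agent.W236.CH.t_EC2
theorem pEC3 : S_EC3 := Pool.Agent.W366.CHEC3.t_EC3 pEAR pA pEC1
theorem pNOEC : S_NOEC := Pool.Agent.W196.CH.t_NOEC pEAR pA pFAN
theorem pU2 : S_U2 := Pool.Agent.W196.CH.t_U2 pNOEC pEC3 pA
theorem pBLK : S_BLK := Pool.Agent.W584.CH.t_BLK
theorem pHUB : S_HUB := Pool.Agent.W119.CH.t_HUB pBLK pCH2L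
theorem pMARK : S_MARK := Pool.Agent.W883.CH.t_MARK pCH2C pCL
theorem pSEG : S_SEG := Pool.Agent.W883.CH.t_SEG
theorem pEC4 : S_EC4 := Pool.Agent.W33.CH.t_EC4 pMARK pSEG pEC1 pEC2 pEC3 pHUB
theorem pPB : S_PB := Pool.Agent.W371.CH.t_PB pEAR pCH2L
theorem pXP1 : S_XP1 := Pool.Agent.W300.CH.t_XP1 pEAR pA pCORE pPB
theorem pXP : S_XP := Pool.Agent.W356.CH.t_XP pMARK pSEG pEC4 pXP1
theorem pX : S_X := Pool.Agent.W356.CH.t_X pXP

end Pool.Agent.W957.CH
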