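import Pool.Agent.W957.CH.Part1
import Pool.Agent.W735.CH.PC0
import Pool.Agent.W612.CH.NC
import Pool.Agent.W538.CH.C4A
import Pool.Agent.W33.CH.FC
import Pool.Agent.W585.CH.PP
import Pool.Agent.W654.CHUC
import Pool.Agent.W486.CH.LA2
import Pool.Agent.W74.CH.Wloc
import Pool.Agent.W193.CH.Shr
import Pool.Agent.W351.CH.ROT
import Pool.Agent.W683.CH.Fin
import Pool.Agent.W287.CH.Wlk

/-! Project CH: assembly of part II, first half. -/

namespace Pool.Agent.W957.CH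

theorem pPC0 : S_PC0 := Pool.Agent.W735.CH.PC0.t_PC0
theorem pNC : S_NC := Pool.Agent.W612.CH.t_NC pGR pX pPC0
theorem p4A : S_4A := Pool.Agent.W538.CH.t_4A pPR1 pEAR pX pNC pPC0
theorem p4C : S_4C := Pool.Agent.W33.CHF.t_4C pPR2 pX pNC pPC0
theorem pUC : S_UC := Pool.Agent.W654.CHUC.t_UC pX pCH2C pPC0 pCL
theorem pLA2 : S_LA2 := Pool.Agent.W486.CH.t_LA2 pUC
theorem pWLOC : S_WLOC := Pool.Agent.W74.CH.t_WLOC p4A p4C
theorem pROT : S_ROT := Pool.Agent.W351.CH.t_ROT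

end Pool.Agent.W957.CH
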