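import Pool.Agent.W957.CH.Part2a
import Pool.Agent.W778.CH.PCS
import Pool.Agent.W899.CH.R1
import Pool.Agent.W925.CH.Ps
import Pool.Agent.W177.CH.WNB
import Pool.Agent.W15.CH.PRC
import Pool.Agent.W764.CH.Zon
import Pool.Agent.W924.CH.NUM
import Pool.Agent.W891.CH.REG
import Pool.Agent.W73.CH.Ini

/-! Project CH: assembly of part II, second half. -/

namespace Pool.Agent.W957.CH

theorem pPCS : S_PCS := Pool.Agent.W778.CH.PCS.t_PCS pPC0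
theorem pR1 : S_R1 := Pool.Agent.W899.CH.R1.t_R1 pPC0 pU2 p4A pPCS
theorem pPP : S_PP := Pool.Agent.W585.CH.PP.t_PP pPR2 pGR pX p4A pPCS pR1 pPC0
theorem pPS : S_PS := Pool.Agent.W925.CH.Ps.t_PS pPP p4A p4C
theorem pWNB : S_WNB := Pool.Agent.W177.CH.t_WNB pPC0 pPCS pWLOC p4A
theorem pPRC : S_PRC := Pool.Agent.W15.CH.t_PRC pPR3 pPR4 pGR pX pPC0 pPCS pWLOC pWNB p4A
theorem pSHR : S_SHR := Pool.Agent.W193.CH.Shr.t_SHR pPRC pWLOC
theorem pZON : S_ZON := Pool.Agent.W764.CH.t_ZON pROT pSHR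
theorem pINI : S_INI := Pool.Agent.W73.CH.t_INI pMARK pSEG pWNB pWLOC pPCS
theorem pNUM : S_NUM := Pool.Agent.W924.CH.t_NUM
theorem pWLK : S_WLK := Pool.Agent.W287.CH.t_WLK

end Pool.Agent.W957.CH
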